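import Pool.Agent.helper12.OB.SpecB

/-!
# Project ob (MP_baa4d7_al), row TW2: the sum over the homomorphisms upstairs, degree 2
-/

set_option autoImplicit false

namespace Pool.Agent.OB

open Pool.Agent.helper58.DC Pool.Agent.DI Pool.Agent.GR

section

variable {G : Type} [Group G] {n : ℕ}

/-- conjugation of all entries -/
def TW2_cj (g : G) (z : Fin n → G) : Fin n → G := fun j => g * z j * g⁻¹

theorem TW2_cj_inv (g : G) (z : Fin n → G) : TW2_cj g⁻¹ (TW2_cj g z) = z := by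
  funext j
  simp only [TW2_cj]
  group

theorem TW2_inv_cj (g : G) (z : Fin n → G) : TW2_cj g (TW2_cj g⁻¹ z) = z := by
  funext j
  simp only [TW2_cj]
  group

theorem TW2_qq_cj (g : G) (z : Fin n → G) : qq (TW2_cj g z) = g * qq z * g⁻¹ := by
  have h := map_list_prod (MulAut.conj g) (List.ofFn z)
  rw [List.map_ofFn] at h
  simp only [MulAut.conj_apply] at h
  unfold qq
  rw [h]
  rfl

theorem TW2_tp_cj (g x : G) : tp 2 (g * x * g⁻¹) = tp 2 x := by
  unfold tp
  have h : (g * x * g⁻¹) ^ 2 = 1 ↔ x ^ 2 = 1 := by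
    rw [conj_pow, conj_eq_one_iff]
  by_cases h1 : x ^ 2 = 1
  · rw [if_pos h1, if_pos (h.2 h1)]
  · rw [if_neg h1, if_neg fun h2 => h1 (h.1 h2)]

theorem TW2_qq_mem (K : Subgroup G) (z : Fin n → G) (h : ∀ j, z j ∈ K) : qq z ∈ K := by
  unfold qq
  apply Subgroup.list_prod_mem
  intro x hx
  rw [List.mem_ofFn'] at hx
  obtain ⟨j, rfl⟩ := hx
  exact h j

theorem TW2_clos (u v S : G) (z z' : Fin n → G) :
    Subgroup.closure ({u, qq z * v, S} ∪
      (Set.range (TW2_cj (qq z * v) z') ∪ Set.range z)) =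
    Subgroup.closure ({u, v, S} ∪ (Set.range z ∪ Set.range z')) := by
  apply le_antisymm
  · rw [Subgroup.closure_le]
    set K := Subgroup.closure ({u, v, S} ∪ (Set.range z ∪ Set.range z')) with hK
    have hu : u ∈ K := Subgroup.subset_closure (by simp)
    have hv : v ∈ K := Subgroup.subset_closure (by simp)
    have hS : S ∈ K := Subgroup.subset_closure (by simp)
    have hz : ∀ j, z j ∈ K := fun j => Subgroup.subset_closure (by simp)
    have hz' : ∀ j, z' j ∈ K := fun j => Subgroup.subset_closure (by simp)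
    have hy : qq z * v ∈ K := K.mul_mem (TW2_qq_mem K z hz) hv
    rintro x ((rfl | rfl | rfl) | ⟨j, rfl⟩ | ⟨j, rfl⟩)
    · exact hu
    · exact hy
    · exact hS
    · exact K.mul_mem (K.mul_mem hy (hz' j)) (K.inv_mem hy)
    · exact hz j
  · rw [Subgroup.closure_le]
    set K := Subgroup.closure ({u, qq z * v, S} ∪
      (Set.range (TW2_cj (qq z * v) z') ∪ Set.range z)) with hK
    have hu : u ∈ K := Subgroup.subset_closure (by simp)
    have hy : qq z * v ∈ K := Subgroup.subset_closure (by simp)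
    have hS : S ∈ K := Subgroup.subset_closure (by simp)
    have hz : ∀ j, z j ∈ K := fun j => Subgroup.subset_closure (by simp)
    have hz' : ∀ j, z' j ∈ K := by
      intro j
      have h1 : TW2_cj (qq z * v) z' j ∈ K := Subgroup.subset_closure (by simp)
      have h2 := K.mul_mem (K.mul_mem (K.inv_mem hy) h1) hy
      have h3 : (qq z * v)⁻¹ * TW2_cj (qq z * v) z' j * (qq z * v) = z' j := by
        simp only [TW2_cj]
        group
      rwa [h3] at h2
    have hv : v ∈ K := by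
      have h1 := K.mul_mem (K.inv_mem (TW2_qq_mem K z hz)) hy
      rwa [inv_mul_cancel_left] at h1
    rintro x ((rfl | rfl | rfl) | ⟨j, rfl⟩ | ⟨j, rfl⟩)
    · exact hu
    · exact hv
    · exact hS
    · exact hz j
    · exact hz' j

theorem TW2_qq_two (f : Fin 2 → G) : qq f = f 0 * f 1 := by
  unfold qq
  simp [List.ofFn_succ]

/-- the bijection -/
def TW2_equiv (ε : (Fin 2 → Fin n → G) ≃ (Fin (2 * n) → G)) :
    (G × G) × ((Fin n → G) × (Fin n → G)) × G ≃ (G × G) × (Fin (2 * n) → G) × G where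
  toFun x := ((x.1.1, qq x.2.1.1 * x.1.2),
    ε ![TW2_cj (qq x.2.1.1 * x.1.2) x.2.1.2, x.2.1.1], x.2.2)
  invFun x := ((x.1.1, (qq (ε.symm x.2.1 1))⁻¹ * x.1.2),
    (ε.symm x.2.1 1, TW2_cj (x.1.2)⁻¹ (ε.symm x.2.1 0)), x.2.2)
  left_inv := by
    rintro ⟨⟨u, v⟩, ⟨z, z'⟩, S⟩
    simp only [Equiv.symm_apply_apply, Matrix.cons_val_zero, Matrix.cons_val_one,
      inv_mul_cancel_left, TW2_cj_inv]
  right_inv := by
    rintro ⟨⟨t, y⟩, w, S⟩
    simp only [mul_inv_cancel_left, TW2_inv_cj]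
    have : ![ε.symm w 0, ε.symm w 1] = ε.symm w := by
      funext i
      fin_cases i <;> rfl
    rw [this, Equiv.apply_symm_apply]

end

theorem TW2 (hBLK : BLK_stmt) : TW2_stmt := by
  intro G _ _ n g₁ g₂
  obtain ⟨ε, hq, hr, ht, -⟩ := hBLK G 2 2 n
  unfold To
  rw [← finsum_comp_equiv (TW2_equiv ε)]
  apply finsum_congr
  rintro ⟨⟨u, v⟩, ⟨z, z'⟩, S⟩
  simp only [TW2_equiv, Equiv.coe_fn_mk]
  rw [hq, hr, ht, Fin.prod_univ_two, TW2_qq_two]
  simp only [Matrix.cons_val_zero, Matrix.cons_val_one]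
  have h1 : (⋃ i, Set.range ((![TW2_cj (qq z * v) z', z] : Fin 2 → Fin n → G) i)) =
      Set.range (TW2_cj (qq z * v) z') ∪ Set.range z := by
    ext x
    simp only [Set.mem_iUnion, Set.mem_union, Fin.exists_fin_two, Matrix.cons_val_zero,
      Matrix.cons_val_one]
  rw [h1, TW2_clos, TW2_qq_cj]
  have h2 : (∏ j, tp 2 (TW2_cj (qq z * v) z' j)) = ∏ j, tp 2 (z' j) :=
    Finset.prod_congr rfl fun j _ => TW2_tp_cj _ _
  rw [h2]
  have h3 : u * (qq z * v) * u⁻¹ * (qq z * v)⁻¹ * (qq z * v * qq z' * (qq z * v)⁻¹ * qq z) * S =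
      wd2 u v (qq z) (qq z') S := by
    unfold wd2
    group
  rw [h3, mul_comm (∏ j, tp 2 (z' j))]

end Pool.Agent.OB
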